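import Mathlib

/-!
# FI4, the numerical part of the bound for the number of `p`-rational characters

`f i u` (`i` a `p`-rational character, `u` a regular element) are integers which are congruent,
up to a sign depending on `u` only, to a constant `k i` prime to `p`.  If Bessel's inequality holds
for all integer combinations, with `2 N < (p - 1) |U|`, then there are at most `(p - 1) / 2`
characters `i`.
-/

namespace Pool.Agent.FI4.NUM

/-- Subset form: all partial sums are at most `h`. -/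
theorem sum_le {ι : Type*} [DecidableEq ι] (c : ι → ℕ) (h R N : ℕ)
    (hc1 : ∀ i, 1 ≤ c i) (hch : ∀ i, c i ≤ h) (hN : N < h * R)
    (hB : ∀ J : Finset ι, ∑ i ∈ J, c i ≤ h → (∑ i ∈ J, c i) ^ 2 * R ≤ N * J.card)
    (s : Finset ι) : ∑ i ∈ s, c i ≤ h := by
  induction s using Finset.strongInduction with
  | H s ih =>
    rcases s.eq_empty_or_nonempty with rfl | hs
    · simp
    obtain ⟨i0, hi0, hmin⟩ := Finset.exists_min_image s c hs
    have hJ : ∑ i ∈ s.erase i0, c i ≤ h := ih _ (Finset.erase_ssubset hi0)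
    have hsum : ∑ i ∈ s.erase i0, c i + c i0 = ∑ i ∈ s, c i :=
      Finset.sum_erase_add s c hi0
    by_contra hcon
    push Not at hcon
    rcases (s.erase i0).eq_empty_or_nonempty with he | ⟨j, hj⟩
    · rw [he, Finset.sum_empty, zero_add] at hsum
      have := hch i0
      omega
    have hjs : j ∈ s := Finset.mem_of_mem_erase hj
    have h1 : c i0 ≤ c j := hmin j hjs
    have hBJ := hB _ hJ
    -- the sum over `J` of `c i - 1`
    have h2 : c j + (s.erase i0).card ≤ ∑ i ∈ s.erase i0, c i + 1 := by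
      have h3 : ∑ i ∈ (s.erase i0).erase j, c i + c j = ∑ i ∈ s.erase i0, c i :=
        Finset.sum_erase_add _ c hj
      have h4 : ((s.erase i0).erase j).card ≤ ∑ i ∈ (s.erase i0).erase j, c i := by
        have := Finset.card_nsmul_le_sum ((s.erase i0).erase j) c 1 (fun i _ => hc1 i)
        simpa using this
      have h5 : ((s.erase i0).erase j).card + 1 = (s.erase i0).card :=
        Finset.card_erase_add_one hj
      omega
    set k := ∑ i ∈ s.erase i0, c i with hk
    set m := (s.erase i0).card with hm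
    have hm1 : 1 ≤ m := Finset.card_pos.mpr ⟨j, hj⟩
    have h6 : h + m ≤ 2 * k := by omega
    have h7 : (k : ℤ) ^ 2 * R ≤ N * m := by exact_mod_cast hBJ
    have h8 : (N : ℤ) + 1 ≤ h * R := by exact_mod_cast hN
    have h9 : (h : ℤ) + m ≤ 2 * k := by exact_mod_cast h6
    have h10 : (1 : ℤ) ≤ m := by exact_mod_cast hm1
    have h11 : (N : ℤ) * m + m ≤ h * R * m := by nlinarith
    have h12 : (0 : ℤ) ≤ h * R := by positivity
    have h13 : (h : ℤ) * R * m ≤ h * R * (2 * k - h) :=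
      mul_le_mul_of_nonneg_left (by linarith) h12
    have h14 : (0 : ℤ) ≤ R * ((k : ℤ) - h) ^ 2 := by positivity
    nlinarith

/-- every integer prime to `p` is congruent to `± c` with `1 ≤ c ≤ (p - 1) / 2`. -/
theorem exists_res (p : ℕ) (hp : Odd p) (k : ℤ) (hk : ¬ (p : ℤ) ∣ k) :
    ∃ s : ℤ, ∃ c : ℕ, (s = 1 ∨ s = -1) ∧ 1 ≤ c ∧ c ≤ (p - 1) / 2 ∧ (p : ℤ) ∣ s * k - c := by
  obtain ⟨m, hm⟩ := hp
  have hp0 : (0 : ℤ) < p := by omega
  have hr0 : 0 ≤ k % p := Int.emod_nonneg _ hp0.ne'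
  have hrp : k % p < p := Int.emod_lt_of_pos _ hp0
  have hr1 : k % p ≠ 0 := fun h => hk (Int.dvd_of_emod_eq_zero h)
  have hdiv : (p : ℤ) ∣ k - k % p := Int.dvd_self_sub_emod
  rcases le_or_gt (k % p) m with h | h
  · refine ⟨1, (k % p).toNat, Or.inl rfl, ?_, ?_, ?_⟩
    · omega
    · omega
    · rw [Int.toNat_of_nonneg hr0, one_mul]
      exact hdiv
  · refine ⟨-1, (p - k % p).toNat, Or.inr rfl, ?_, ?_, ?_⟩
    · omega
    · omega
    · rw [Int.toNat_of_nonneg (by omega)]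
      have e : -1 * k - ((p : ℤ) - k % p) = -(k - k % p) - p := by ring
      rw [e]
      exact dvd_sub ((dvd_neg).mpr hdiv) (dvd_refl _)

/-- an integer congruent to `k` with `0 ≤ k ≤ (p - 1) / 2` has square at least `k ^ 2`. -/
theorem sq_le_of_dvd (p : ℕ) (k : ℕ) (hk : k ≤ (p - 1) / 2) (x : ℤ)
    (hx : (p : ℤ) ∣ x - k) : (k : ℤ) ^ 2 ≤ x ^ 2 := by
  obtain ⟨t, ht⟩ := hx
  rw [sq_le_sq]
  have hk' : 2 * (k : ℤ) ≤ p := by omega
  have hxe : x = k + p * t := by linarith
  rw [abs_of_nonneg (by positivity : (0 : ℤ) ≤ k)]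
  rcases le_or_gt 0 t with h | h
  · have : 0 ≤ (p : ℤ) * t := by positivity
    rw [abs_of_nonneg (by rw [hxe]; positivity)]
    linarith
  · have h1 : (p : ℤ) * t ≤ p * (-1) := mul_le_mul_of_nonneg_left (by omega) (by positivity)
    have h2 : x ≤ -k := by linarith
    have h3 : k ≤ -x := by linarith
    exact h3.trans (neg_le_abs x)

/-- **The bound**: at most `(p - 1) / 2` rows. -/
theorem card_le {ι α : Type*} [Fintype ι] (p : ℕ) (hp : Odd p) (U : Finset α)
    (f : ι → α → ℤ) (e : α → ℤ) (he : ∀ u ∈ U, e u = 1 ∨ e u = -1)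
    (k : ι → ℤ) (hk : ∀ i, ¬ (p : ℤ) ∣ k i) (hf : ∀ i, ∀ u ∈ U, (p : ℤ) ∣ e u * f i u - k i)
    (N : ℕ) (hN : 2 * N < (p - 1) * U.card)
    (hB : ∀ a : ι → ℤ, ∑ u ∈ U, (∑ i, a i * f i u) ^ 2 ≤ N * ∑ i, a i ^ 2) :
    Fintype.card ι ≤ (p - 1) / 2 := by
  classical
  choose s c hs hc1 hch hsc using fun i => exists_res p hp (k i) (hk i)
  have key : ∀ J : Finset ι, ∑ i ∈ J, c i ≤ (p - 1) / 2 →
      (∑ i ∈ J, c i) ^ 2 * U.card ≤ N * J.card := by
    intro J hJ
    have h1 := hB (fun i => if i ∈ J then s i else 0)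
    have h2 : ∑ i, (if i ∈ J then s i else 0) ^ 2 = (J.card : ℤ) := by
      have : ∀ i, (if i ∈ J then s i else 0) ^ 2 = if i ∈ J then (1 : ℤ) else 0 := by
        intro i
        split_ifs
        · rcases hs i with h | h <;> rw [h] <;> norm_num
        · norm_num
      rw [Finset.sum_congr rfl (fun i _ => this i), Finset.sum_ite_mem, Finset.univ_inter]
      simp
    rw [h2] at h1
    have h3 : ∀ u ∈ U, ((∑ i ∈ J, c i : ℕ) : ℤ) ^ 2 ≤
        (∑ i, (if i ∈ J then s i else 0) * f i u) ^ 2 := by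
      intro u hu
      have h4 : ∑ i, (if i ∈ J then s i else 0) * f i u = ∑ i ∈ J, s i * f i u := by
        rw [Finset.sum_congr rfl (fun i _ => ite_mul _ _ _ _)]
        simp [Finset.sum_ite_mem]
      rw [h4]
      have h5 : (p : ℤ) ∣ e u * (∑ i ∈ J, s i * f i u) - ((∑ i ∈ J, c i : ℕ) : ℤ) := by
        have h6 : e u * (∑ i ∈ J, s i * f i u) - ((∑ i ∈ J, c i : ℕ) : ℤ)
            = ∑ i ∈ J, (s i * (e u * f i u - k i) + (s i * k i - c i)) := by
          rw [Finset.mul_sum, Nat.cast_sum, ← Finset.sum_sub_distrib]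
          refine Finset.sum_congr rfl (fun i _ => ?_)
          ring
        rw [h6]
        exact Finset.dvd_sum (fun i _ => dvd_add (Dvd.dvd.mul_left (hf i u hu) _) (hsc i))
      have h7 := sq_le_of_dvd p _ hJ _ h5
      have h8 : (e u * ∑ i ∈ J, s i * f i u) ^ 2 = (∑ i ∈ J, s i * f i u) ^ 2 := by
        rcases he u hu with h | h <;> rw [h] <;> ring
      rwa [h8] at h7
    have h9 := Finset.sum_le_sum h3
    rw [Finset.sum_const, nsmul_eq_mul] at h9
    have h10 : (U.card : ℤ) * ((∑ i ∈ J, c i : ℕ) : ℤ) ^ 2 ≤ N * J.card := h9.trans h1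
    have h11 : U.card * (∑ i ∈ J, c i) ^ 2 ≤ N * J.card := by exact_mod_cast h10
    rwa [mul_comm] at h11
  have hN' : N < (p - 1) / 2 * U.card := by
    obtain ⟨m, hm⟩ := hp
    have e1 : (p - 1) / 2 = m := by omega
    have e2 : p - 1 = 2 * m := by omega
    rw [e2] at hN
    rw [e1]
    nlinarith
  have h12 := sum_le c ((p - 1) / 2) U.card N hc1 hch hN' key Finset.univ
  have h13 : Fintype.card ι ≤ ∑ i, c i := by
    have := Finset.card_nsmul_le_sum Finset.univ c 1 (fun i _ => hc1 i)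
    simpa using this
  exact h13.trans h12

/-- the condition `3 n < p` (with `n = |I|`, `D = |D|`, `R = |D_reg|`). -/
theorem cond (p n D R : ℕ) (hn : 1 ≤ n) (hD : 1 ≤ D) (h3 : 3 * n < p) (hRD : R ≤ D)
    (hR : p * (D - R) ≤ (n - 1) * D) : 2 * (n * D) < (p - 1) * R := by
  obtain ⟨m, rfl⟩ : ∃ m, n = m + 1 := ⟨n - 1, by omega⟩
  obtain ⟨q, rfl⟩ : ∃ q, p = q + 1 := ⟨p - 1, by omega⟩
  obtain ⟨x, rfl⟩ : ∃ x, D = R + x := ⟨D - R, by omega⟩
  simp only [Nat.add_sub_cancel, Nat.add_sub_cancel_left] at hR ⊢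
  -- `(q + 1) x ≤ m (R + x)`, `3 (m + 1) ≤ q`
  have h4 : 3 * m + 3 ≤ q := by omega
  obtain ⟨t, rfl⟩ : ∃ t, q = 3 * m + 3 + t := ⟨q - (3 * m + 3), by omega⟩
  rcases Nat.eq_zero_or_pos R with h0 | h0
  · subst h0
    exfalso
    have : 1 ≤ x := by omega
    nlinarith
  by_contra hcon
  push Not at hcon
  nlinarith [Nat.zero_le (t * x), Nat.zero_le (m * x), Nat.zero_le (t * R), Nat.zero_le (m * R),
    mul_le_mul_of_nonneg_left hcon (Nat.zero_le (m + 1)),
    mul_le_mul_of_nonneg_left hR (Nat.zero_le (m + 1))]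

end Pool.Agent.FI4.NUM
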