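import Mathlib
import Pool.Agent.helper26.FI4.NUM

/-!
# FI4: Bessel's inequality for combinations of the characters of a block, and the bound

`R` is the set of the regular elements of `D`, `act` the action of the inertial quotient `I` on it, `d χ u` are the
generalised decomposition numbers (`χ` in the block, `u ∈ R`), `N = |D|`.  `bessel`: for all complex coefficients `a χ`
`∑_{u ∈ R} |∑_χ a χ d χ u|² ≤ |D| |I| ∑_χ |a χ|²`.  `bound`: if `2 |D| |I| < (p - 1) |R|`, then at most `(p - 1) / 2` of the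
`χ` have integral `d χ u` which are congruent modulo `p`, up to a sign depending on `u` only, to a constant prime to `p`.
-/

namespace Pool.Agent.FI4.NUM

open scoped ComplexConjugate

theorem bessel {X D I : Type*} [Fintype X] [Fintype I] (R : Finset D) (act : I → D → D)
    (hact : ∀ t, ∀ u ∈ R, act t u ∈ R) (hinj : ∀ u ∈ R, Function.Injective fun t => act t u)
    (d : X → D → ℂ) (hd : ∀ χ t, ∀ u ∈ R, d χ (act t u) = d χ u) (N : ℕ)
    (h0 : ∀ u ∈ R, ∀ v ∈ R, (∀ t, act t u ≠ v) → ∑ χ, d χ v * conj (d χ u) = 0)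
    (h1 : ∀ u ∈ R, ∑ χ, d χ u * conj (d χ u) = (N : ℂ)) (a : X → ℂ) :
    ∑ u ∈ R, ‖∑ χ, a χ * d χ u‖ ^ 2 ≤ (N * Fintype.card I : ℕ) * ∑ χ, ‖a χ‖ ^ 2 := by
  classical
  set F : D → ℂ := fun u => ∑ χ, a χ * d χ u with hF
  set b : X → ℂ := fun χ => ∑ u ∈ R, conj (F u) * d χ u with hb
  set S : ℝ := ∑ u ∈ R, ‖F u‖ ^ 2 with hS
  have hFact : ∀ t, ∀ u ∈ R, F (act t u) = F u := fun t u hu => by
    simp only [hF]
    exact Finset.sum_congr rfl fun χ _ => by rw [hd χ t u hu]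
  -- `∑ a χ * b χ = S`
  have e1 : ∑ χ, a χ * b χ = (S : ℂ) := by
    have : ∀ χ, a χ * b χ = ∑ u ∈ R, conj (F u) * (a χ * d χ u) := fun χ => by
      simp only [hb]
      rw [Finset.mul_sum]
      exact Finset.sum_congr rfl fun u _ => by ring
    rw [Finset.sum_congr rfl fun χ _ => this χ, Finset.sum_comm, hS, Complex.ofReal_sum]
    refine Finset.sum_congr rfl fun u _ => ?_
    rw [← Finset.mul_sum, ← Complex.normSq_eq_norm_sq]
    rw [Complex.normSq_eq_conj_mul_self]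
  -- `∑ |b χ|² = |D| |I| S`
  have e2 : ∑ χ, ‖b χ‖ ^ 2 = (N * Fintype.card I : ℕ) * S := by
    have h2 : ((∑ χ, ‖b χ‖ ^ 2 : ℝ) : ℂ) = ((N * Fintype.card I : ℕ) * S : ℝ) := by
      have h3 : ∀ χ, ((‖b χ‖ ^ 2 : ℝ) : ℂ) =
          ∑ u ∈ R, ∑ v ∈ R, F u * conj (F v) * (d χ v * conj (d χ u)) := fun χ => by
        rw [← Complex.normSq_eq_norm_sq, Complex.normSq_eq_conj_mul_self]
        simp only [hb]
        rw [map_sum, Finset.sum_mul_sum]
        refine Finset.sum_congr rfl fun u _ => Finset.sum_congr rfl fun v _ => ?_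
        rw [map_mul, Complex.conj_conj]
        ring
      rw [Complex.ofReal_sum, Finset.sum_congr rfl fun χ _ => h3 χ, Finset.sum_comm]
      have h4 : ∀ u ∈ R, ∑ χ, ∑ v ∈ R, F u * conj (F v) * (d χ v * conj (d χ u)) =
          (N * Fintype.card I : ℕ) * ((‖F u‖ ^ 2 : ℝ) : ℂ) := fun u hu => by
        rw [Finset.sum_comm]
        have h5 : ∀ v ∈ R, ∑ χ, F u * conj (F v) * (d χ v * conj (d χ u)) =
            F u * conj (F v) * ∑ χ, d χ v * conj (d χ u) := fun v _ => by rw [Finset.mul_sum]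
        rw [Finset.sum_congr rfl h5]
        -- only the `v = act t u` contribute
        have h6 : (Finset.univ.image fun t => act t u) ⊆ R := by
          intro v hv
          obtain ⟨t, _, rfl⟩ := Finset.mem_image.1 hv
          exact hact t u hu
        rw [← Finset.sum_subset h6 fun v hv hvn => by
          rw [h0 u hu v hv fun t e => hvn (Finset.mem_image.2 ⟨t, Finset.mem_univ _, e⟩), mul_zero]]
        rw [Finset.sum_image fun t _ t' _ e => hinj u hu e]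
        have h7 : ∀ t : I, F u * conj (F (act t u)) * ∑ χ, d χ (act t u) * conj (d χ u) =
            ((‖F u‖ ^ 2 : ℝ) : ℂ) * N := fun t => by
          rw [hFact t u hu, Finset.sum_congr rfl fun χ _ => by rw [hd χ t u hu], h1 u hu,
            ← Complex.normSq_eq_norm_sq, Complex.normSq_eq_conj_mul_self]
          ring
        rw [Finset.sum_congr rfl fun t _ => h7 t, Finset.sum_const, Finset.card_univ, nsmul_eq_mul]
        push_cast
        ring
      rw [Finset.sum_congr rfl h4, ← Finset.mul_sum, hS]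
      push_cast
      ring
    exact_mod_cast h2
  -- Cauchy-Schwarz
  have hS0 : 0 ≤ S := Finset.sum_nonneg fun u _ => by positivity
  have h8 : S ≤ ∑ χ, ‖a χ‖ * ‖b χ‖ := by
    have h9 : ‖((S : ℝ) : ℂ)‖ ≤ ∑ χ, ‖a χ * b χ‖ := by
      rw [← e1]
      exact norm_sum_le _ _
    rw [Complex.norm_real, Real.norm_of_nonneg hS0] at h9
    simpa only [norm_mul] using h9
  have h10 : (∑ χ, ‖a χ‖ * ‖b χ‖) ^ 2 ≤ (∑ χ, ‖a χ‖ ^ 2) * ∑ χ, ‖b χ‖ ^ 2 :=
    Finset.sum_mul_sq_le_sq_mul_sq _ _ _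
  rw [e2] at h10
  have h11 : S ^ 2 ≤ (∑ χ, ‖a χ‖ ^ 2) * ((N * Fintype.card I : ℕ) * S) :=
    (pow_le_pow_left₀ hS0 h8 2).trans h10
  rcases hS0.eq_or_lt with h12 | h12
  · rw [← h12]
    positivity
  · have h13 : S * S ≤ ((N * Fintype.card I : ℕ) * ∑ χ, ‖a χ‖ ^ 2) * S := by
      calc S * S = S ^ 2 := by ring
        _ ≤ _ := h11
        _ = _ := by ring
    exact le_of_mul_le_mul_right h13 h12

theorem bound {X D I : Type*} [Fintype X] [Fintype I] (p : ℕ) (hp : Odd p) (R : Finset D)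
    (act : I → D → D) (hact : ∀ t, ∀ u ∈ R, act t u ∈ R)
    (hinj : ∀ u ∈ R, Function.Injective fun t => act t u)
    (d : X → D → ℂ) (hd : ∀ χ t, ∀ u ∈ R, d χ (act t u) = d χ u) (N : ℕ)
    (h0 : ∀ u ∈ R, ∀ v ∈ R, (∀ t, act t u ≠ v) → ∑ χ, d χ v * conj (d χ u) = 0)
    (h1 : ∀ u ∈ R, ∑ χ, d χ u * conj (d χ u) = (N : ℂ))
    (Y : Finset X) (f : X → D → ℤ) (hfd : ∀ χ ∈ Y, ∀ u ∈ R, d χ u = (f χ u : ℂ))
    (e : D → ℤ) (he : ∀ u ∈ R, e u = 1 ∨ e u = -1) (k : X → ℤ) (hk : ∀ χ ∈ Y, ¬ (p : ℤ) ∣ k χ)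
    (hf : ∀ χ ∈ Y, ∀ u ∈ R, (p : ℤ) ∣ e u * f χ u - k χ)
    (hN : 2 * (N * Fintype.card I) < (p - 1) * R.card) : Y.card ≤ (p - 1) / 2 := by
  classical
  have h2 := card_le (ι := Y) p hp R (fun χ u => f χ u) e he (fun χ => k χ)
    (fun χ => hk χ χ.2) (fun χ u hu => hf χ χ.2 u hu) (N * Fintype.card I) hN ?_
  · simpa using h2
  intro a
  have h3 := bessel R act hact hinj d hd N h0 h1
    (fun χ => if h : χ ∈ Y then ((a ⟨χ, h⟩ : ℤ) : ℂ) else 0)
  have h4 : ∀ g : X → ℂ, ∑ χ, (if h : χ ∈ Y then ((a ⟨χ, h⟩ : ℤ) : ℂ) else 0) * g χ =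
      ∑ χ : Y, ((a χ : ℤ) : ℂ) * g χ := fun g => by
    rw [← Finset.sum_subset (Finset.subset_univ Y) fun χ _ hχ => by rw [dif_neg hχ, zero_mul],
      ← Finset.sum_coe_sort Y]
    exact Finset.sum_congr rfl fun χ _ => by rw [dif_pos χ.2]
  have h5 : ∑ χ, ‖(if h : χ ∈ Y then ((a ⟨χ, h⟩ : ℤ) : ℂ) else 0)‖ ^ 2 =
      ((∑ χ : Y, a χ ^ 2 : ℤ) : ℝ) := by
    rw [← Finset.sum_subset (Finset.subset_univ Y) fun χ _ hχ => by
      rw [dif_neg hχ, norm_zero]; norm_num, ← Finset.sum_coe_sort Y]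
    push_cast
    refine Finset.sum_congr rfl fun χ _ => ?_
    rw [dif_pos χ.2, Complex.norm_intCast, sq_abs]
  have h6 : ∑ u ∈ R, ‖∑ χ, (if h : χ ∈ Y then ((a ⟨χ, h⟩ : ℤ) : ℂ) else 0) * d χ u‖ ^ 2 =
      ((∑ u ∈ R, (∑ χ : Y, a χ * f χ u) ^ 2 : ℤ) : ℝ) := by
    push_cast
    refine Finset.sum_congr rfl fun u hu => ?_
    rw [h4 fun χ => d χ u]
    have h7 : ∑ χ : Y, ((a χ : ℤ) : ℂ) * d χ u = ((∑ χ : Y, a χ * f χ u : ℤ) : ℂ) := by
      push_cast
      exact Finset.sum_congr rfl fun χ _ => by rw [hfd χ χ.2 u hu]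
    rw [h7, Complex.norm_intCast, sq_abs]
    push_cast
    rfl
  rw [h5, h6] at h3
  exact_mod_cast h3

end Pool.Agent.FI4.NUM
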