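import Pool.Agent.helper70.FI4.SpecK

/-! # Row fk:KBL (MP_baa4d7_al): blocks of the quotient and of the group -/

set_option autoImplicit false

namespace Pool.Agent.FI4

open Pool.Agent.helper58.DC Pool.Agent.DI Pool.Agent.GR Pool.Agent.OB Pool.Agent.DR Pool.Agent.FI Pool.Agent.FI3

theorem KBL_fwd (hKMG : KMG_stmt) (M : Ideal (integralClosure ℤ ℂ)) (G Gb : Type) [Group G] [Finite G]
    [Group Gb] [Finite Gb] (π : G →* Gb) (hπ : Function.Surjective π) (f f' : Gb → ℂ)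
    (h : Induces M f f') : Induces M (fun g => f (π g)) (fun g => f' (π g)) := by
  intro g
  obtain ⟨m, -, hm⟩ := hKMG G Gb π hπ g
  obtain ⟨a, ha, e⟩ := h (π g)
  refine ⟨(m : integralClosure ℤ ℂ) * a, M.mul_mem_left _ ha, ?_⟩
  rw [hm f, hm f']
  push_cast
  rw [← e]
  ring

theorem KBL_ex (hFMX : FMX_stmt) (hC7 : C7_stmt) (hC8 : C8_stmt) (p : ℕ) (M : Ideal (integralClosure ℤ ℂ))
    (hS : Setup p M) (Gb : Type) [Group Gb] [Finite Gb] (Cb : Finset (Subgroup Gb))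
    (hCb : NCh p ⊤ ⊥ Cb) (f : Gb → ℂ) (hf : f ∈ IrrOn (nrm Cb)) : ∃ χ' ∈ Irr Gb, Induces M f χ' := by
  haveI : Fact p.Prime := ⟨hS.pr⟩
  by_cases hC : Cb = {⊥}
  · have h1 : nrm Cb = ⊤ := by
      rw [hC]
      unfold nrm
      rw [eq_top_iff]
      refine le_iInf₂ fun Q hQ => ?_
      rw [Finset.mem_singleton] at hQ
      rw [hQ]
      intro x _
      rw [Subgroup.mem_normalizer_iff]
      intro h
      simp
    refine hC8 Gb p M hS.max hS.mem f (hC7 Gb p M hS.max hS.mem ⊥ (nrm Cb) bot_le ?_ ?_ ?_ f hf)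
    · intro x _
      rw [Subgroup.mem_normalizer_iff]
      intro h
      simp
    · rw [h1]
      exact le_top
    · exact IsPGroup.of_bot
  · obtain ⟨P, hP, hne, hpg, hle, hPn, hnP, hcz⟩ := hFMX Gb p Cb hCb hC
    exact hC8 Gb p M hS.max hS.mem f (hC7 Gb p M hS.max hS.mem P (nrm Cb) hPn hnP hcz hpg f hf)

theorem KBL (hKMG : KMG_stmt) (hFMX : FMX_stmt) (hC7 : C7_stmt) (hC8 : C8_stmt) (hIM : IM_stmt) :
    KBL_stmt := by
  intro p M hS G Gb _ _ _ _ R π hq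
  refine ⟨fun f f' h => KBL_fwd hKMG M G Gb π hq.sur f f' h, fun χ Cb hCb f hf => ⟨fun h => ?_, ?_⟩⟩
  · obtain ⟨χ', hχ', hInd⟩ := KBL_ex hFMX hC7 hC8 p M hS Gb Cb hCb f hf
    have h1 := KBL_fwd hKMG M G Gb π hq.sur f χ' hInd
    have h2 := (hIM G M (fun g => f (π g)) (fun g => χ' (π g)) χ).2.1 h1
    exact ⟨χ', ⟨hχ', (hIM G M (fun g => χ' (π g)) (fun g => f (π g)) χ).2.2.1 h2 h⟩, hInd⟩
  · rintro ⟨χ', ⟨hχ', h1⟩, h2⟩
    have h3 := KBL_fwd hKMG M G Gb π hq.sur f χ' h2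
    exact (hIM G M (fun g => f (π g)) (fun g => χ' (π g)) χ).2.2.1 h3 h1

end Pool.Agent.FI4
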